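import Pool.Agent.Helper97_ACE.Test

/-!
# The spectral measure of `δ_0` in terms of the `L¹` limit of the densities
-/

set_option autoImplicit false
set_option linter.unusedSectionVars false

open scoped InnerProductSpace ComplexConjugate Topology ENNReal
open MeasureTheory Filter

noncomputable section

namespace Pool.Agent.ACE

open Pool.Agent.Anderson Pool.Agent.Helper54.Bal

variable {d : ℕ}

/-- If the imaginary parts of `G_00 (E + i η)` converge in `L¹(a, b)` (along a sequence of `η`) to a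
positive function, the spectral measure of `δ_0` is equivalent to the Lebesgue measure on
`(a, b)`. -/
theorem det {V : Site d → ℝ} {m : Measure ℝ} (hm : RepM V (del 0) m) {e : ℕ → ℝ}
    (he : ∀ k, 0 < e k) (he0 : Tendsto e atTop (𝓝 0)) {a b : ℝ} {γ : ℝ → ℝ}
    (hγm : Measurable γ) (hγ : ∀ᵐ E ∂((volume : Measure ℝ).restrict (Set.Ioo a b)), 0 < γ E)
    (hR : ∀ ε : ℝ≥0∞, 0 < ε → ∃ᶠ k in atTop, ∫⁻ E in Set.Ioo a b,
      ‖(G V (zz (e k) E) (del 0) 0).im - γ E‖ₑ ≤ ε)
    {N : Set ℝ} (hN : N ⊆ Set.Ioo a b) (hNm : MeasurableSet N) :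
    (volume N = 0 → m N = 0) ∧ (m N = 0 → volume N = 0) := by
  have hfm := hm.1
  have him : ∀ k E, (G V (zz (e k) E) (del 0) 0).im = e k * ‖G V (zz (e k) E) (del 0)‖ ^ 2 := by
    intro k E
    rw [im_G_del (by rw [zz_im]; exact (he k).ne'), zz_im]
  have hcont : ∀ k, Continuous fun E : ℝ => e k * ‖G V (zz (e k) E) (del 0)‖ ^ 2 := fun k =>
    continuous_const.mul (((isRes_G V).cont_line (he k).ne' _).norm.pow 2)
  simp only [him] at hR
  set w : ℕ → ℝ → ℝ := fun k E => e k * ‖G V (zz (e k) E) (del 0)‖ ^ 2 with hw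
  have hR' : ∀ ε : ℝ≥0∞, 0 < ε → ∃ᶠ k in atTop, ∫⁻ E in Set.Ioo a b, ‖w k E - γ E‖ₑ ≤ ε := hR
  have hdm : ∀ k, Measurable fun E => ‖w k E - γ E‖ₑ := fun k =>
    ((hcont k).measurable.sub hγm).enorm
  set ν : Measure ℝ := ((volume : Measure ℝ).restrict (Set.Ioo a b)).withDensity
    (fun E => ENNReal.ofReal (γ E)) with hν
  have hγm' : Measurable fun E => ENNReal.ofReal (γ E) := hγm.ennreal_ofReal
  have hmass : ∀ k, ∫⁻ E, ENNReal.ofReal (w k E) = ENNReal.ofReal Real.pi := by
    intro k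
    rw [hw, ← ofReal_integral_eq_lintegral_ofReal]
    · congr 1
      rw [integral_const_mul, (isRes_G V).integral_sq (he k), norm_del]
      have := (he k).ne'
      field_simp
    · exact ((isRes_G V).integrable_sq (he k) _).const_mul _
    · exact Eventually.of_forall fun E => mul_nonneg (he k).le (sq_nonneg _)
  have hfin : IsFiniteMeasure ν := by
    refine ⟨?_⟩
    rw [hν, withDensity_apply _ MeasurableSet.univ, Measure.restrict_univ]
    obtain ⟨k, hk⟩ := (hR' 1 one_pos).exists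
    calc ∫⁻ E in Set.Ioo a b, ENNReal.ofReal (γ E)
        ≤ ∫⁻ E in Set.Ioo a b, (ENNReal.ofReal (w k E) + ‖w k E - γ E‖ₑ) := by
          refine lintegral_mono fun E => ?_
          rw [Real.enorm_eq_ofReal_abs]
          refine le_trans (ENNReal.ofReal_le_ofReal ?_) (ENNReal.ofReal_add_le)
          have := neg_abs_le (w k E - γ E)
          linarith
      _ = (∫⁻ E in Set.Ioo a b, ENNReal.ofReal (w k E)) +
          ∫⁻ E in Set.Ioo a b, ‖w k E - γ E‖ₑ :=
          lintegral_add_left (hcont k).measurable.ennreal_ofReal _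
      _ ≤ ENNReal.ofReal Real.pi + 1 := by
          refine add_le_add ?_ hk
          rw [← hmass k]
          exact setLIntegral_le_lintegral _ _
      _ < ∞ := by
          exact ENNReal.add_lt_top.2 ⟨ENNReal.ofReal_lt_top, ENNReal.one_lt_top⟩
  have hπ : ENNReal.ofReal Real.pi ≠ 0 := by
    rw [Ne, ENNReal.ofReal_eq_zero, not_le]
    exact Real.pi_pos
  have hπm : IsFiniteMeasure (ENNReal.ofReal Real.pi • m) := m.smul_finite ENNReal.ofReal_ne_top
  -- the test integrals
  have hX : ∀ f : ℝ → ℝ, Continuous f → (∀ t, 0 ≤ f t) → (∀ t, f t ≤ 1) →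
      (∀ t, t ∉ Set.Ioo a b → f t = 0) →
      Tendsto (fun k => ∫⁻ E in Set.Ioo a b, ENNReal.ofReal (f E * w k E)) atTop
        (𝓝 (∫⁻ t, ENNReal.ofReal (f t) ∂(ENNReal.ofReal Real.pi • m))) := by
    intro f hf hf0 hf1 hfO
    have hP : ∀ t, |f t| ≤ 1 := fun t => by rw [abs_of_nonneg (hf0 t)]; exact hf1 t
    have t1 := test_lim hm hf hf0 hP he he0
    rw [lintegral_smul_measure, smul_eq_mul]
    refine t1.congr fun k => ?_
    rw [← lintegral_indicator measurableSet_Ioo]
    refine lintegral_congr fun E => ?_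
    by_cases hE : E ∈ Set.Ioo a b
    · rw [Set.indicator_of_mem hE]
    · rw [Set.indicator_of_notMem hE, hfO E hE, zero_mul, ENNReal.ofReal_zero]
  have hνf : ∀ f : ℝ → ℝ, Continuous f → (∀ t, 0 ≤ f t) →
      ∫⁻ t, ENNReal.ofReal (f t) ∂ν = ∫⁻ E in Set.Ioo a b, ENNReal.ofReal (f E * γ E) := by
    intro f hf hf0
    rw [hν, lintegral_withDensity_eq_lintegral_mul _ hγm' hf.measurable.ennreal_ofReal]
    refine lintegral_congr fun E => ?_
    rw [Pi.mul_apply, ENNReal.ofReal_mul (hf0 E), mul_comm]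
  have hfm' : ∀ f : ℝ → ℝ, Continuous f → ∀ k, Measurable fun E => ENNReal.ofReal (f E * w k E) :=
    fun f hf k => (hf.mul (hcont k)).measurable.ennreal_ofReal
  have hup : ∀ f : ℝ → ℝ, Continuous f → (∀ t, 0 ≤ f t) → (∀ t, f t ≤ 1) →
      (∀ t, t ∉ Set.Ioo a b → f t = 0) →
      ∫⁻ t, ENNReal.ofReal (f t) ∂(ENNReal.ofReal Real.pi • m) ≤
        ∫⁻ t, ENNReal.ofReal (f t) ∂ν := by
    intro f hf hf0 hf1 hfO
    refine ENNReal.le_of_forall_pos_le_add fun ε hε _ => ?_
    have h1 : ∃ᶠ k in atTop, ∫⁻ E in Set.Ioo a b, ENNReal.ofReal (f E * w k E) ∈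
        Set.Iic (∫⁻ t, ENNReal.ofReal (f t) ∂ν + ε) := by
      refine (hR' ε (by exact_mod_cast hε)).mono fun k hk => ?_
      rw [Set.mem_Iic, hνf f hf hf0]
      calc ∫⁻ E in Set.Ioo a b, ENNReal.ofReal (f E * w k E)
          ≤ ∫⁻ E in Set.Ioo a b, (ENNReal.ofReal (f E * γ E) + ‖w k E - γ E‖ₑ) := by
            refine lintegral_mono fun E => ?_
            rw [Real.enorm_eq_ofReal_abs]
            refine le_trans (ENNReal.ofReal_le_ofReal ?_) (ENNReal.ofReal_add_le)
            have h2 := le_abs_self (w k E - γ E)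
            have h3 := abs_nonneg (w k E - γ E)
            have h4 := hf0 E
            have h5 := hf1 E
            nlinarith
        _ = (∫⁻ E in Set.Ioo a b, ENNReal.ofReal (f E * γ E)) +
            ∫⁻ E in Set.Ioo a b, ‖w k E - γ E‖ₑ :=
            lintegral_add_left (hf.measurable.mul hγm).ennreal_ofReal _
        _ ≤ _ := by gcongr
    exact isClosed_Iic.mem_of_frequently_of_tendsto h1 (hX f hf hf0 hf1 hfO)
  have hlow : ∀ f : ℝ → ℝ, Continuous f → (∀ t, 0 ≤ f t) → (∀ t, f t ≤ 1) →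
      (∀ t, t ∉ Set.Ioo a b → f t = 0) →
      ∫⁻ t, ENNReal.ofReal (f t) ∂ν ≤
        ∫⁻ t, ENNReal.ofReal (f t) ∂(ENNReal.ofReal Real.pi • m) := by
    intro f hf hf0 hf1 hfO
    refine ENNReal.le_of_forall_pos_le_add fun ε hε _ => ?_
    have h1 : ∃ᶠ k in atTop, (∫⁻ E in Set.Ioo a b, ENNReal.ofReal (f E * w k E)) + ε ∈
        Set.Ici (∫⁻ t, ENNReal.ofReal (f t) ∂ν) := by
      refine (hR' ε (by exact_mod_cast hε)).mono fun k hk => ?_
      rw [Set.mem_Ici, hνf f hf hf0]
      calc ∫⁻ E in Set.Ioo a b, ENNReal.ofReal (f E * γ E)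
          ≤ ∫⁻ E in Set.Ioo a b, (ENNReal.ofReal (f E * w k E) + ‖w k E - γ E‖ₑ) := by
            refine lintegral_mono fun E => ?_
            rw [Real.enorm_eq_ofReal_abs]
            refine le_trans (ENNReal.ofReal_le_ofReal ?_) (ENNReal.ofReal_add_le)
            have h2 := neg_abs_le (w k E - γ E)
            have h3 := abs_nonneg (w k E - γ E)
            have h4 := hf0 E
            have h5 := hf1 E
            nlinarith
        _ = (∫⁻ E in Set.Ioo a b, ENNReal.ofReal (f E * w k E)) +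
            ∫⁻ E in Set.Ioo a b, ‖w k E - γ E‖ₑ :=
            lintegral_add_left (hfm' f hf k) _
        _ ≤ _ := by gcongr
    exact isClosed_Ici.mem_of_frequently_of_tendsto h1
      ((hX f hf hf0 hf1 hfO).add tendsto_const_nhds)
  have h1 : (ENNReal.ofReal Real.pi • m) N ≤ ν N := le_of_test isOpen_Ioo hup hNm hN
  have h2 : ν N ≤ (ENNReal.ofReal Real.pi • m) N := le_of_test isOpen_Ioo hlow hNm hN
  rw [Measure.smul_apply, smul_eq_mul] at h1 h2
  have h3 : ν N = ∫⁻ E in N, ENNReal.ofReal (γ E) := by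
    rw [hν, withDensity_apply _ hNm, Measure.restrict_restrict hNm,
      Set.inter_eq_self_of_subset_left hN]
  constructor
  · intro h0
    have h4 : ν N = 0 := by
      rw [h3, Measure.restrict_eq_zero.2 h0, lintegral_zero_measure]
    rw [h4] at h1
    exact (mul_eq_zero.1 (le_antisymm h1 bot_le)).resolve_left hπ
  · intro h0
    rw [h0, mul_zero] at h2
    have h4 : ∫⁻ E in N, ENNReal.ofReal (γ E) = 0 := h3 ▸ le_antisymm h2 bot_le
    rw [lintegral_eq_zero_iff hγm'] at h4
    have h5 : ∀ᵐ E ∂((volume : Measure ℝ).restrict N), 0 < γ E :=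
      ae_mono (Measure.restrict_mono hN le_rfl) hγ
    have h6 : ∀ᵐ E ∂((volume : Measure ℝ).restrict N), False := by
      filter_upwards [h4, h5] with E h7 h8
      have h9 : ENNReal.ofReal (γ E) = 0 := h7
      rw [ENNReal.ofReal_eq_zero] at h9
      exact absurd h8 (not_lt.2 h9)
    have h7 := eventually_false_iff_eq_bot.1 h6
    exact Measure.restrict_eq_zero.1 (ae_eq_bot.1 h7)

end Pool.Agent.ACE
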