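import Pool.Agent.Helper97_ACE.Avg
import Pool.Agent.Helper97_ACE.Det
import Pool.Agent.Helper40_AEN.SPA

/-!
# The absolutely continuous end on `ℤ^d`: proof of `AceStmt`
-/

set_option autoImplicit false
set_option linter.unusedSectionVars false

open scoped InnerProductSpace ComplexConjugate Topology ENNReal
open MeasureTheory Filter

noncomputable section

namespace Pool.Agent.ACE

open Pool.Agent.Anderson Pool.Agent.Loc Pool.Agent.Helper54.Bal
open Pool.Agent.QE (KK lam ac_lam Dat)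

variable {d : ℕ}

/-- comparison of the reference measure with the Lebesgue measure on a bounded interval -/
theorem setLIntegral_le_lam {a b : ℝ} {g : ℝ → ℝ≥0∞} (hg : Measurable g) :
    ∫⁻ E in Set.Ioo a b, g E ≤
      ENNReal.ofReal (1 + (|a| + |b|) ^ 2) * ∫⁻ E in Set.Ioo a b, g E ∂lam := by
  have hm : Measurable fun E : ℝ => ENNReal.ofReal (1 + E ^ 2)⁻¹ := by fun_prop
  have h1 : ∫⁻ E in Set.Ioo a b, g E ∂lam =
      ∫⁻ E in Set.Ioo a b, (ENNReal.ofReal (1 + E ^ 2)⁻¹ * g E) := by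
    unfold lam
    exact setLIntegral_withDensity_eq_setLIntegral_mul _ hm hg measurableSet_Ioo
  have hmg : Measurable fun E : ℝ => ENNReal.ofReal (1 + E ^ 2)⁻¹ * g E := hm.mul hg
  rw [h1, ← lintegral_const_mul _ hmg]
  refine setLIntegral_mono' measurableSet_Ioo fun E hE => ?_
  rw [← mul_assoc, ← ENNReal.ofReal_mul (by positivity)]
  have h2 : |E| ≤ |a| + |b| := by
    rw [abs_le]
    have h3 := neg_abs_le a
    have h4 := le_abs_self b
    have h5 := abs_nonneg a
    have h6 := abs_nonneg b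
    constructor
    · linarith [hE.1]
    · linarith [hE.2]
  have h3 : 1 ≤ (1 + (|a| + |b|) ^ 2) * (1 + E ^ 2)⁻¹ := by
    rw [← div_eq_mul_inv, le_div_iff₀ (by positivity), one_mul]
    have h4 : E ^ 2 ≤ (|a| + |b|) ^ 2 := by
      rw [← sq_abs E]
      gcongr
    linarith
  calc g E = 1 * g E := (one_mul _).symm
    _ ≤ ENNReal.ofReal ((1 + (|a| + |b|) ^ 2) * (1 + E ^ 2)⁻¹) * g E := by
        gcongr
        exact ENNReal.one_le_ofReal.2 h3

/-- the law has no atoms -/
theorem gl_singleton {σ : ℝ} (hσ : σ ≠ 0) (x : ℝ) : gl σ {x} = 0 := by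
  obtain ⟨-, h⟩ := bddDens_gl hσ
  have := h x x
  rw [Set.Icc_self, sub_self, mul_zero, ENNReal.ofReal_zero] at this
  exact nonpos_iff_eq_zero.1 this

theorem good_ae {σ a b : ℝ} (hσ : σ ≠ 0)
    (h : ∃ η : ℕ → ℝ, (∀ n, 0 < η n) ∧ Tendsto η atTop (𝓝 0) ∧
      ∀ᵐ E ∂((volume : Measure ℝ).restrict (Set.Ioo a b)), ∃ (c : ℝ) (p : ℝ≥0∞), 0 < c ∧ p ≠ 0 ∧
        ∀ᶠ n in atTop, p ≤ Pool.Agent.QE.PP d (gl σ)
          {V | c ≤ (G V (zz (η n) E) (del 0) 0).im}) :
    ∀ᵐ V ∂(Pool.Agent.QE.PP d (gl σ)), ∀ m : Measure ℝ, RepM V (del 0) m →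
      ∀ N ⊆ Set.Ioo a b, MeasurableSet N → (volume N = 0 → m N = 0) ∧ (m N = 0 → volume N = 0) := by
  obtain ⟨η, hη, hη0, h⟩ := h
  obtain ⟨φ, gg, hφ, D⟩ := exists_dat1 (d := d) (gl σ) hη hη0
  set e : ℕ → ℝ := fun k => η (φ k) with he
  have hpos := pos_ae (gl_singleton hσ) D (a := a) (b := b) (by
    filter_upwards [h] with E hE
    obtain ⟨c, p, hc, hp, h1⟩ := hE
    exact ⟨c, p, hc, hp, hφ.eventually h1⟩)
  have hC : 0 ≤ Pool.Agent.AEN.cs σ := by
    unfold Pool.Agent.AEN.cs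
    positivity
  have havg := avg D hC (fun V E η hη => Pool.Agent.AEN.H40.spa d σ E η V hσ hη) hpos
  -- the integrals for fixed `V`
  set R : ℕ → (Site d → ℝ) → ℝ≥0∞ := fun k V =>
    ∫⁻ E in Set.Ioo a b, Psi e gg k (V, E) ∂lam with hR
  have hPm : ∀ k, Measurable (Psi e gg k) := fun k => measurable_Psi D k
  have hind : ∀ k V, R k V = ∫⁻ E, (strip d a b).indicator (Psi e gg k) (V, E) ∂lam := by
    intro k V
    rw [hR]
    simp only
    rw [← lintegral_indicator measurableSet_Ioo]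
    refine lintegral_congr fun E => ?_
    by_cases hE : E ∈ Set.Ioo a b
    · have h1 : ((V, E) : (Site d → ℝ) × ℝ) ∈ strip d a b := hE
      rw [Set.indicator_of_mem hE, Set.indicator_of_mem h1]
    · have h1 : ((V, E) : (Site d → ℝ) × ℝ) ∉ strip d a b := hE
      rw [Set.indicator_of_notMem hE, Set.indicator_of_notMem h1]
  have hHm : ∀ k, Measurable ((strip d a b).indicator (Psi e gg k)) := fun k =>
    (hPm k).indicator (measurableSet_strip a b)
  have hRm : ∀ k, Measurable (R k) := by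
    intro k
    have h1 : R k = fun V => ∫⁻ E, (strip d a b).indicator (Psi e gg k) (V, E) ∂lam :=
      funext (hind k)
    rw [h1]
    exact (hHm k).lintegral_prod_right'
  have hRint : ∀ k, ∫⁻ V, R k V ∂(Pool.Agent.QE.PP d (gl σ)) =
      ∫⁻ p in strip d a b, Psi e gg k p ∂(KK d (gl σ)) := by
    intro k
    rw [← lintegral_indicator (measurableSet_strip a b)]
    have h1 := lintegral_prod (μ := Pool.Agent.QE.PP d (gl σ)) (ν := lam) _ (hHm k).aemeasurable
    rw [h1]
    exact lintegral_congr (hind k)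
  have hlim : ∀ᵐ V ∂(Pool.Agent.QE.PP d (gl σ)), liminf (fun k => R k V) atTop = 0 := by
    have h1 : ∫⁻ V, liminf (fun k => R k V) atTop ∂(Pool.Agent.QE.PP d (gl σ)) = 0 := by
      refine le_antisymm ((lintegral_liminf_le hRm).trans ?_) bot_le
      simp only [hRint]
      rw [havg.liminf_eq]
    exact (lintegral_eq_zero_iff (Measurable.liminf hRm)).1 h1
  have hγ : ∀ᵐ V ∂(Pool.Agent.QE.PP d (gl σ)), ∀ᵐ E ∂((volume : Measure ℝ).restrict
      (Set.Ioo a b)), 0 < (gg 0 0 (V, E)).im := by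
    filter_upwards [Measure.ae_ae_of_ae_prod hpos] with V hV
    rw [ae_restrict_iff' measurableSet_Ioo]
    exact ac_lam.ae_le hV
  filter_upwards [hlim, hγ] with V h1 h2 m hm N hN hNm
  refine det hm (e := e) D.pos D.zero (γ := fun E => (gg 0 0 (V, E)).im)
    (Complex.measurable_im.comp ((D.mg 0 0).comp measurable_prodMk_left)) h2 ?_ hN hNm
  intro ε hε
  set K : ℝ≥0∞ := ENNReal.ofReal (1 + (|a| + |b|) ^ 2) with hK
  have hK0 : K ≠ 0 := by
    rw [hK, Ne, ENNReal.ofReal_eq_zero, not_le]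
    positivity
  have hεK : 0 < ε / K := ENNReal.div_pos hε.ne' ENNReal.ofReal_ne_top
  have h3 : ∃ᶠ k in atTop, R k V < ε / K :=
    frequently_lt_of_liminf_lt (by isBoundedDefault) (by rw [h1]; exact hεK)
  refine h3.mono fun k hk => ?_
  have h4 : Measurable fun E => Psi e gg k (V, E) := (hPm k).comp measurable_prodMk_left
  calc ∫⁻ E in Set.Ioo a b, ‖(G V (zz (e k) E) (del 0) 0).im - (gg 0 0 (V, E)).im‖ₑ
      ≤ K * R k V := setLIntegral_le_lam h4
    _ ≤ K * (ε / K) := by gcongr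
    _ ≤ ε := ENNReal.mul_div_le

/-- ACE -/
theorem ace : AceStmt := by
  intro d σ a b _ hσ h
  have h1 : ∀ᵐ V ∂(PP d (gl σ)), ∀ m : Measure ℝ, RepM V (del 0) m →
      ∀ N ⊆ Set.Ioo a b, MeasurableSet N →
        (volume N = 0 → m N = 0) ∧ (m N = 0 → volume N = 0) := good_ae hσ h
  have h2 : ∀ᵐ V ∂(PP d (gl σ)), ∀ x : Site d, ∀ m : Measure ℝ, RepM (tau x V) (del 0) m →
      ∀ N ⊆ Set.Ioo a b, MeasurableSet N →
        (volume N = 0 → m N = 0) ∧ (m N = 0 → volume N = 0) := by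
    rw [ae_all_iff]
    intro x
    exact (shiftInv_PP (gl σ) x).quasiMeasurePreserving.ae h1
  filter_upwards [h2] with V hV
  have h3 : ∀ (x : Site d) (m : Measure ℝ), RepM V (del x) m → ∀ N ⊆ Set.Ioo a b,
      MeasurableSet N → (volume N = 0 → m N = 0) ∧ (m N = 0 → volume N = 0) := by
    intro x m hm
    refine hV x m ⟨hm.1, fun z hz => ?_⟩
    rw [← hm.2 z hz, inner_del_left, inner_del_left, Pool.Agent.Mob.H25.G_tau hz, zero_add]
  refine ⟨exists_repM V, fun u m hm N hN h0 => ?_, fun x m hm N hN h0 => ?_⟩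
  · set N' : Set ℝ := toMeasurable volume N ∩ Set.Ioo a b with hN'
    have h4 : N ⊆ N' := fun t ht => ⟨subset_toMeasurable _ _ ht, hN ht⟩
    have h5 : MeasurableSet N' := (measurableSet_toMeasurable _ _).inter measurableSet_Ioo
    have h6 : volume N' = 0 := by
      refine measure_mono_null Set.inter_subset_left ?_
      rw [measure_toMeasurable, h0]
    exact measure_mono_null h4 (null_all h5 (fun x m' hm' =>
      (h3 x m' hm' N' Set.inter_subset_right h5).1 h6) u m hm)
  · set N' : Set ℝ := toMeasurable m N ∩ Set.Ioo a b with hN'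
    have h4 : N ⊆ N' := fun t ht => ⟨subset_toMeasurable _ _ ht, hN ht⟩
    have h5 : MeasurableSet N' := (measurableSet_toMeasurable _ _).inter measurableSet_Ioo
    have h6 : m N' = 0 := by
      refine measure_mono_null Set.inter_subset_left ?_
      rw [measure_toMeasurable, h0]
    exact measure_mono_null h4 ((h3 x m hm N' Set.inter_subset_right h5).2 h6)

end Pool.Agent.ACE
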