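import Pool.Agent.Helper54_Ballistic.Law
import Pool.Agent.Helper48_Loc.GaussLaw

/-!
# The absolutely continuous end on `ℤ^d`: definitions and statement

If for every energy `E` of an interval the imaginary part of the Green function
`G_00 (E + i η)` is bounded below, with a probability bounded below, along one sequence `η → 0`, then
almost surely the spectrum of the Anderson Hamiltonian `Δ + V` (Gaussian potential) in the interval is
purely absolutely continuous and fills the interval.
-/

set_option autoImplicit false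

open MeasureTheory ProbabilityTheory Filter

open scoped InnerProductSpace ENNReal Topology

noncomputable section

namespace Pool.Agent.ACE

open Pool.Agent.Anderson Pool.Agent.Loc Pool.Agent.Helper54.Bal

variable {d : ℕ}

/-- `m` is the spectral measure of the vector `u` for `Δ + V` (`G V z` is the resolvent
`(Δ + V - z)⁻¹`); the same as `Pool.Agent.SPX.SpecM`. -/
def RepM (V : Site d → ℝ) (u : L2 d) (m : Measure ℝ) : Prop :=
  IsFiniteMeasure m ∧ ∀ z : ℂ, z.im ≠ 0 → ⟪u, G V z u⟫_ℂ = ∫ t : ℝ, ((t : ℂ) - z)⁻¹ ∂m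

/-- The spectrum of `Δ + V` in `(a, b)` is purely absolutely continuous and fills `(a, b)`: every
vector has a spectral measure; all spectral measures vanish on the Lebesgue null subsets of `(a, b)`,
and the spectral measure of each `δ_x` is equivalent to the Lebesgue measure on `(a, b)`. -/
def ACIn (V : Site d → ℝ) (a b : ℝ) : Prop :=
  (∀ u : L2 d, ∃ m : Measure ℝ, RepM V u m) ∧
  (∀ (u : L2 d) (m : Measure ℝ), RepM V u m → ∀ N ⊆ Set.Ioo a b, volume N = 0 → m N = 0) ∧
  ∀ (x : Site d) (m : Measure ℝ), RepM V (del x) m → ∀ N ⊆ Set.Ioo a b, m N = 0 → volume N = 0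

/-- ACE: the absolutely continuous end. -/
def AceStmt : Prop :=
  ∀ (d : ℕ) (σ a b : ℝ), 1 ≤ d → σ ≠ 0 →
    (∃ η : ℕ → ℝ, (∀ n, 0 < η n) ∧ Tendsto η atTop (𝓝 0) ∧
      ∀ᵐ E ∂((volume : Measure ℝ).restrict (Set.Ioo a b)), ∃ (c : ℝ) (p : ℝ≥0∞), 0 < c ∧ p ≠ 0 ∧
        ∀ᶠ n in atTop, p ≤ PP d (gl σ) {V | c ≤ (G V (zz (η n) E) (del 0) 0).im}) →
    ∀ᵐ V ∂(PP d (gl σ)), ACIn V a b

end Pool.Agent.ACE
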