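import Pool.Agent.Helper97_ACE.Spec

/-!
# Comparison of measures by test functions, algebra of the spectral measures
-/

set_option autoImplicit false
set_option linter.unusedSectionVars false

open scoped InnerProductSpace ComplexConjugate Topology ENNReal
open MeasureTheory Filter

noncomputable section

namespace Pool.Agent.ACE

open Pool.Agent.Anderson Pool.Agent.Helper54.Bal

variable {d : ℕ}

/-- comparison of two finite measures on an open set by test functions -/
theorem le_of_test {m ν : Measure ℝ} [IsFiniteMeasure m] [IsFiniteMeasure ν] {O : Set ℝ}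
    (hO : IsOpen O)
    (h : ∀ f : ℝ → ℝ, Continuous f → (∀ t, 0 ≤ f t) → (∀ t, f t ≤ 1) → (∀ t, t ∉ O → f t = 0) →
      ∫⁻ t, ENNReal.ofReal (f t) ∂m ≤ ∫⁻ t, ENNReal.ofReal (f t) ∂ν)
    {N : Set ℝ} (hN : MeasurableSet N) (hNO : N ⊆ O) : m N ≤ ν N := by
  refine ENNReal.le_of_forall_pos_le_add fun ε hε _ => ?_
  have hε2 : ((ε : ℝ≥0∞) / 2) ≠ 0 := by
    simp [hε.ne']
  obtain ⟨K, hKN, hK, hmK⟩ := hN.exists_isClosed_lt_add (μ := m) (measure_ne_top _ _) hε2
  obtain ⟨U, hKU, hU, hνU⟩ := K.exists_isOpen_le_add ν hε2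
  have hUO : IsOpen (U ∩ O) := hU.inter hO
  obtain ⟨f, hf0, hf1, hf⟩ := exists_continuous_zero_one_of_isClosed (s := (U ∩ O)ᶜ) (t := K)
    hUO.isClosed_compl hK (by
      rw [Set.disjoint_left]
      intro t ht htK
      exact ht ⟨hKU htK, hNO (hKN htK)⟩)
  have h1 := h f f.continuous (fun t => (hf t).1) (fun t => (hf t).2)
    (fun t ht => hf0 (fun hh => ht hh.2))
  have h2 : m K ≤ ∫⁻ t, ENNReal.ofReal (f t) ∂m := by
    rw [← lintegral_indicator_one hK.measurableSet]
    refine lintegral_mono fun t => ?_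
    by_cases ht : t ∈ K
    · rw [Set.indicator_of_mem ht, hf1 ht]
      simp
    · rw [Set.indicator_of_notMem ht]
      exact bot_le
  have h3 : ∫⁻ t, ENNReal.ofReal (f t) ∂ν ≤ ν U := by
    rw [← lintegral_indicator_one hU.measurableSet]
    refine lintegral_mono fun t => ?_
    by_cases ht : t ∈ U
    · rw [Set.indicator_of_mem ht]
      simpa using (hf t).2
    · have h4 : f t = 0 := hf0 (fun hh => ht hh.1)
      rw [h4]
      simp
  calc m N ≤ m K + (ε : ℝ≥0∞) / 2 := hmK.le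
    _ ≤ (ν K + (ε : ℝ≥0∞) / 2) + (ε : ℝ≥0∞) / 2 := by
        gcongr
        exact (h2.trans (h1.trans h3)).trans hνU
    _ = ν K + ε := by rw [add_assoc, ENNReal.add_halves]
    _ ≤ ν N + ε := by
        gcongr

/-- the sequence `1 / (k + 1)` -/
theorem seq_pos (k : ℕ) : (0:ℝ) < 1 / ((k : ℝ) + 1) := by positivity

theorem rep_add {V : Site d → ℝ} {u v : L2 d} {m n ρ : Measure ℝ} (hu : RepM V u m)
    (hv : RepM V v n) (hw : RepM V (u + v) ρ) {N : Set ℝ} (hN : MeasurableSet N) :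
    ρ N ≤ 2 * m N + 2 * n N := by
  have h1 := hu.1
  have h2 := hv.1
  have h3 := hw.1
  have i1 : IsFiniteMeasure ((2 : ℝ≥0∞) • m) := m.smul_finite (by norm_num)
  have i2 : IsFiniteMeasure ((2 : ℝ≥0∞) • n) := n.smul_finite (by norm_num)
  have key : ρ N ≤ ((2 : ℝ≥0∞) • m + (2 : ℝ≥0∞) • n) N := by
    refine le_of_test (m := ρ) (ν := (2 : ℝ≥0∞) • m + (2 : ℝ≥0∞) • n) isOpen_univ ?_ hN
      (Set.subset_univ _)
    intro f hf hf0 hf1 _
    have hP : ∀ t, |f t| ≤ 1 := fun t => by rw [abs_of_nonneg (hf0 t)]; exact hf1 t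
    have t1 := test_lim hu hf hf0 hP seq_pos tendsto_one_div_add_atTop_nhds_zero_nat
    have t2 := test_lim hv hf hf0 hP seq_pos tendsto_one_div_add_atTop_nhds_zero_nat
    have t3 := test_lim hw hf hf0 hP seq_pos tendsto_one_div_add_atTop_nhds_zero_nat
    have hπ : ENNReal.ofReal Real.pi ≠ 0 := by
      rw [Ne, ENNReal.ofReal_eq_zero, not_le]
      exact Real.pi_pos
    rw [lintegral_add_measure, lintegral_smul_measure, lintegral_smul_measure]
    have h4 : ENNReal.ofReal Real.pi * ∫⁻ t, ENNReal.ofReal (f t) ∂ρ ≤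
        2 * (ENNReal.ofReal Real.pi * ∫⁻ t, ENNReal.ofReal (f t) ∂m) +
        2 * (ENNReal.ofReal Real.pi * ∫⁻ t, ENNReal.ofReal (f t) ∂n) := by
      refine le_of_tendsto_of_tendsto' t3 (Tendsto.add
        (ENNReal.Tendsto.const_mul t1 (Or.inr (by norm_num)))
        (ENNReal.Tendsto.const_mul t2 (Or.inr (by norm_num)))) fun k => ?_
      rw [← lintegral_const_mul' _ _ (by norm_num), ← lintegral_const_mul' _ _ (by norm_num)]
      have hc : ∀ w : L2 d, Measurable fun E : ℝ =>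
          ENNReal.ofReal (f E * (1 / ((k : ℝ) + 1) * ‖G V (zz (1 / ((k : ℝ) + 1)) E) w‖ ^ 2)) := by
        intro w
        have h5 := (isRes_G V).cont_line (seq_pos k).ne' w
        exact (hf.mul (continuous_const.mul (h5.norm.pow 2))).measurable.ennreal_ofReal
      rw [← lintegral_add_left ((hc u).const_mul 2)]
      refine lintegral_mono fun E => ?_
      have e2 : ∀ x : ℝ, (2 : ℝ≥0∞) * ENNReal.ofReal x = ENNReal.ofReal (2 * x) := fun x => by
        rw [ENNReal.ofReal_mul (by norm_num)]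
        simp
      have p := (seq_pos k).le
      have q := hf0 E
      rw [e2, e2, ← ENNReal.ofReal_add (by positivity) (by positivity)]
      refine ENNReal.ofReal_le_ofReal ?_
      rw [map_add]
      set x := G V (zz (1 / ((k : ℝ) + 1)) E) u
      set y := G V (zz (1 / ((k : ℝ) + 1)) E) v
      have h6 : ‖x + y‖ ^ 2 ≤ 2 * ‖x‖ ^ 2 + 2 * ‖y‖ ^ 2 := by
        have h7 := norm_add_le x y
        have h8 := norm_nonneg (x + y)
        nlinarith [sq_nonneg (‖x‖ - ‖y‖)]
      have h9 : 0 ≤ f E * (1 / ((k : ℝ) + 1)) := mul_nonneg q p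
      calc f E * (1 / ((k : ℝ) + 1) * ‖x + y‖ ^ 2) =
            (f E * (1 / ((k : ℝ) + 1))) * ‖x + y‖ ^ 2 := by ring
        _ ≤ (f E * (1 / ((k : ℝ) + 1))) * (2 * ‖x‖ ^ 2 + 2 * ‖y‖ ^ 2) :=
            mul_le_mul_of_nonneg_left h6 h9
        _ = _ := by ring
    have h5 : ENNReal.ofReal Real.pi * ∫⁻ t, ENNReal.ofReal (f t) ∂ρ ≤
        ENNReal.ofReal Real.pi * (2 * ∫⁻ t, ENNReal.ofReal (f t) ∂m +
          2 * ∫⁻ t, ENNReal.ofReal (f t) ∂n) := by
      refine h4.trans (le_of_eq ?_)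
      ring
    exact (ENNReal.mul_le_mul_iff_right hπ ENNReal.ofReal_ne_top).1 h5
  simpa using key

theorem rep_smul {V : Site d → ℝ} {u : L2 d} {c : ℂ} {m ρ : Measure ℝ} (hu : RepM V u m)
    (hw : RepM V (c • u) ρ) {N : Set ℝ} (hN : MeasurableSet N) :
    ρ N ≤ ENNReal.ofReal (‖c‖ ^ 2) * m N := by
  have h1 := hu.1
  have h3 := hw.1
  have i1 : IsFiniteMeasure (ENNReal.ofReal (‖c‖ ^ 2) • m) := m.smul_finite ENNReal.ofReal_ne_top
  have key : ρ N ≤ (ENNReal.ofReal (‖c‖ ^ 2) • m) N := by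
    refine le_of_test (m := ρ) (ν := ENNReal.ofReal (‖c‖ ^ 2) • m) isOpen_univ ?_ hN
      (Set.subset_univ _)
    intro f hf hf0 hf1 _
    have hP : ∀ t, |f t| ≤ 1 := fun t => by rw [abs_of_nonneg (hf0 t)]; exact hf1 t
    have t1 := test_lim hu hf hf0 hP seq_pos tendsto_one_div_add_atTop_nhds_zero_nat
    have t3 := test_lim hw hf hf0 hP seq_pos tendsto_one_div_add_atTop_nhds_zero_nat
    have hπ : ENNReal.ofReal Real.pi ≠ 0 := by
      rw [Ne, ENNReal.ofReal_eq_zero, not_le]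
      exact Real.pi_pos
    rw [lintegral_smul_measure, smul_eq_mul]
    have h4 : ENNReal.ofReal Real.pi * ∫⁻ t, ENNReal.ofReal (f t) ∂ρ ≤
        ENNReal.ofReal (‖c‖ ^ 2) * (ENNReal.ofReal Real.pi * ∫⁻ t, ENNReal.ofReal (f t) ∂m) := by
      refine le_of_tendsto_of_tendsto' t3
        (ENNReal.Tendsto.const_mul t1 (Or.inr ENNReal.ofReal_ne_top)) fun k => ?_
      rw [← lintegral_const_mul' _ _ ENNReal.ofReal_ne_top]
      refine lintegral_mono fun E => ?_
      rw [← ENNReal.ofReal_mul (by positivity)]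
      refine ENNReal.ofReal_le_ofReal ?_
      rw [map_smul, norm_smul, mul_pow]
      exact le_of_eq (by ring)
    have h5 : ENNReal.ofReal Real.pi * ∫⁻ t, ENNReal.ofReal (f t) ∂ρ ≤
        ENNReal.ofReal Real.pi * (ENNReal.ofReal (‖c‖ ^ 2) * ∫⁻ t, ENNReal.ofReal (f t) ∂m) := by
      refine h4.trans (le_of_eq ?_)
      ring
    exact (ENNReal.mul_le_mul_iff_right hπ ENNReal.ofReal_ne_top).1 h5
  simpa using key

/-- If the spectral measures of all `δ_x` vanish on `N`, so do all spectral measures. -/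
theorem null_all {V : Site d → ℝ} {N : Set ℝ} (hN : MeasurableSet N)
    (h : ∀ (x : Site d) (m : Measure ℝ), RepM V (del x) m → m N = 0) (u : L2 d) (m : Measure ℝ)
    (hm : RepM V u m) : m N = 0 := by
  classical
  -- finite combinations
  have hfin : ∀ (F : Finset (Site d)) (ρ : Measure ℝ),
      RepM V (∑ x ∈ F, u x • (del x : L2 d)) ρ → ρ N = 0 := by
    intro F
    induction F using Finset.induction_on with
    | empty =>
      intro ρ hρ
      have h1 := mass_le hρ
      rw [Finset.sum_empty, norm_zero] at h1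
      have h2 : ρ Set.univ = 0 := by simpa using h1
      exact measure_mono_null (Set.subset_univ _) h2
    | insert x F hx ih =>
      intro ρ hρ
      rw [Finset.sum_insert hx] at hρ
      obtain ⟨m1, hm1⟩ := exists_repM V (u x • (del x : L2 d))
      obtain ⟨m2, hm2⟩ := exists_repM V (∑ x ∈ F, u x • (del x : L2 d))
      obtain ⟨m3, hm3⟩ := exists_repM V (del x)
      have h1 := rep_add hm1 hm2 hρ hN
      have h2 := rep_smul hm3 hm1 hN
      rw [h x m3 hm3, mul_zero] at h2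
      rw [ih m2 hm2, le_antisymm h2 bot_le, mul_zero, add_zero] at h1
      exact le_antisymm h1 bot_le
  refine le_antisymm ?_ bot_le
  refine ENNReal.le_of_forall_pos_le_add fun ε hε _ => ?_
  rw [zero_add]
  have hs := Pool.Agent.QE.hasSum_del u
  have hε' : 0 < Real.sqrt ((ε : ℝ) / 2) := Real.sqrt_pos.2 (by positivity)
  obtain ⟨F, hF⟩ := (Metric.tendsto_nhds.1 hs _ hε').exists
  set w : L2 d := ∑ x ∈ F, u x • (del x : L2 d) with hw
  obtain ⟨m1, hm1⟩ := exists_repM V w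
  obtain ⟨m2, hm2⟩ := exists_repM V (u - w)
  have hm' : RepM V (w + (u - w)) m := by
    rw [add_sub_cancel]; exact hm
  have h1 := rep_add hm1 hm2 hm' hN
  rw [hfin F m1 hm1, mul_zero, zero_add] at h1
  refine h1.trans ?_
  have h2 : m2 N ≤ ENNReal.ofReal (‖u - w‖ ^ 2) :=
    (measure_mono (Set.subset_univ _)).trans (mass_le hm2)
  have h3 : ‖u - w‖ ^ 2 ≤ (ε : ℝ) / 2 := by
    rw [dist_comm, dist_eq_norm] at hF
    calc ‖u - w‖ ^ 2 ≤ (Real.sqrt ((ε : ℝ) / 2)) ^ 2 := by gcongr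
      _ = (ε : ℝ) / 2 := Real.sq_sqrt (by positivity)
  calc 2 * m2 N ≤ ENNReal.ofReal 2 * ENNReal.ofReal ((ε : ℝ) / 2) := by
        have e2 : (2 : ℝ≥0∞) = ENNReal.ofReal 2 := by simp
        rw [e2]
        gcongr
        exact h2.trans (ENNReal.ofReal_le_ofReal h3)
    _ = ENNReal.ofReal (ε : ℝ) := by
        rw [← ENNReal.ofReal_mul (by norm_num)]
        congr 1
        ring
    _ = ε := ENNReal.ofReal_coe_nnreal

end Pool.Agent.ACE
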