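import Pool.Agent.Helper97_ACE.Pos

/-!
# Convergence in `L¹` of the imaginary parts (spectral averaging)
-/

set_option autoImplicit false
set_option linter.unusedSectionVars false

open scoped InnerProductSpace ComplexConjugate Topology ENNReal
open MeasureTheory Filter

noncomputable section

namespace Pool.Agent.ACE

open Pool.Agent.Anderson Pool.Agent.Helper54.Bal Pool.Agent.QE

variable {d : ℕ}

/-- the resampled Green function is bounded, uniformly in the new value of the potential -/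
theorem norm_upd_le {V : Cfg d} {z : ℂ} (hz : 0 < z.im) (s : ℝ) :
    ‖G (Function.update V 0 s) z (del 0) 0‖ ≤
      ‖G V z (del 0) 0‖ ^ 2 / (G V z (del 0) 0).im := by
  have hpos := im_G_del_pos (V := V) hz 0
  have h1 := congrArg (fun f : L2 d => f 0) (G_upd_del (V := V) (x₀ := 0) (s := s) hz.ne')
  simp only [lp.coeFn_smul, Pi.smul_apply, smul_eq_mul] at h1
  set g : ℂ := G V z (del 0) 0 with hg
  set g' : ℂ := G (Function.update V 0 s) z (del 0) 0 with hg'
  set t : ℝ := s - V 0 with ht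
  have h2 : g = (1 + (t : ℂ) * g) * g' := by
    rw [ht]
    push_cast
    exact h1
  rw [le_div_iff₀ hpos]
  have h3 : g.im ≤ ‖g‖ * ‖1 + (t : ℂ) * g‖ := by
    have h4 : (conj g * (1 + (t : ℂ) * g)).im = -g.im := by
      simp [Complex.mul_im]
      ring
    have h5 := Complex.abs_im_le_norm (conj g * (1 + (t : ℂ) * g))
    rw [h4, norm_mul, RCLike.norm_conj, abs_neg, abs_of_pos hpos] at h5
    exact h5
  have h6 : ‖g‖ = ‖1 + (t : ℂ) * g‖ * ‖g'‖ := by
    conv_lhs => rw [h2]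
    rw [norm_mul]
  calc ‖g'‖ * g.im ≤ ‖g'‖ * (‖g‖ * ‖1 + (t : ℂ) * g‖) :=
        mul_le_mul_of_nonneg_left h3 (norm_nonneg _)
    _ = ‖g‖ * (‖1 + (t : ℂ) * g‖ * ‖g'‖) := by ring
    _ = ‖g‖ ^ 2 := by rw [← h6]; ring

/-- the strip of energies -/
def strip (d : ℕ) (a b : ℝ) : Set (Cfg d × ℝ) := {p | p.2 ∈ Set.Ioo a b}

theorem measurableSet_strip (a b : ℝ) : MeasurableSet (strip d a b) :=
  measurable_snd measurableSet_Ioo

/-- the distance of the imaginary part to the boundary value -/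
def Psi (e : ℕ → ℝ) (gg : Site d → Site d → Cfg d × ℝ → ℂ) (k : ℕ) (p : Cfg d × ℝ) : ℝ≥0∞ :=
  ‖(G p.1 (zz (e k) p.2) (del 0) 0).im - (gg 0 0 p).im‖ₑ

section dat

variable {μ : Measure ℝ} [IsProbabilityMeasure μ] {e : ℕ → ℝ}
  {gg : Site d → Site d → Cfg d × ℝ → ℂ} (D : Dat (A1 d) μ e gg (fun _ x => gg x x))

include D

theorem measurable_im (k : ℕ) :
    Measurable fun p : Cfg d × ℝ => (G p.1 (zz (e k) p.2) (del 0) 0).im :=
  Complex.measurable_im.comp (measurable_coord (sm_G (D.pos k).ne' measurable_fst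
    measurable_snd stronglyMeasurable_const) 0)

theorem measurable_Psi (k : ℕ) : Measurable (Psi e gg k) :=
  ((measurable_im D k).sub (Complex.measurable_im.comp (D.mg 0 0))).enorm

theorem avg_bound {C : ℝ} (hC : 0 ≤ C) (hSpa : ∀ (V : Cfg d) (E η : ℝ), 0 < η →
      ∫⁻ s, ENNReal.ofReal (G (Function.update V 0 s) (zz η E) (del 0) 0).im ∂μ ≤
        ENNReal.ofReal C) (a b : ℝ) (k : ℕ) :
    ∀ᵐ p ∂(KK d μ), ∫⁻ s, (strip d a b).indicator (Psi e gg k) (upd 0 (p, s)) ∂μ ≤
      ENNReal.ofReal (2 * C) := by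
  filter_upwards [Measure.ae_ae_of_ae_prod (ae_upd mp 0 D.gl)] with p hp
  have hlim : ∀ᵐ s ∂μ, Tendsto (fun k => (G (Function.update p.1 0 s) (zz (e k) p.2) (del 0) 0).im)
      atTop (𝓝 (gg 0 0 (upd 0 (p, s))).im) := by
    filter_upwards [hp] with s hs
    exact (Complex.continuous_im.tendsto _).comp (hs 0 0)
  have hmeas : ∀ k, Measurable fun s : ℝ =>
      (G (Function.update p.1 0 s) (zz (e k) p.2) (del 0) 0).im := by
    intro k
    have h1 : Measurable fun s : ℝ => upd (0 : Site d) (p, s) :=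
      (mp d μ 0).measurable.comp measurable_prodMk_left
    have h2 := (measurable_im D k).comp h1
    exact h2
  have h1 : ∫⁻ s, ENNReal.ofReal (gg 0 0 (upd 0 (p, s))).im ∂μ ≤ ENNReal.ofReal C := by
    have h2 : ∫⁻ s, ENNReal.ofReal (gg 0 0 (upd 0 (p, s))).im ∂μ =
        ∫⁻ s, liminf (fun k => ENNReal.ofReal
          (G (Function.update p.1 0 s) (zz (e k) p.2) (del 0) 0).im) atTop ∂μ := by
      refine lintegral_congr_ae ?_
      filter_upwards [hlim] with s hs
      exact (((ENNReal.continuous_ofReal.tendsto _).comp hs).liminf_eq).symm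
    rw [h2]
    refine (lintegral_liminf_le fun k => (hmeas k).ennreal_ofReal).trans ?_
    refine liminf_le_of_frequently_le' (Frequently.of_forall fun k => ?_)
    exact hSpa p.1 p.2 (e k) (D.pos k)
  have h2 : ∀ᵐ s ∂μ, (strip d a b).indicator (Psi e gg k) (upd 0 (p, s)) ≤
      ENNReal.ofReal (G (Function.update p.1 0 s) (zz (e k) p.2) (del 0) 0).im +
        ENNReal.ofReal (gg 0 0 (upd 0 (p, s))).im := by
    filter_upwards [hlim] with s hs
    refine (Set.indicator_le_self _ _ _).trans ?_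
    have h3 : ∀ k, 0 ≤ (G (Function.update p.1 0 s) (zz (e k) p.2) (del 0) 0).im := fun k =>
      (im_G_del_pos (zk_im D.pos k) 0).le
    have h4 : 0 ≤ (gg 0 0 (upd 0 (p, s))).im := ge_of_tendsto' hs h3
    have h5 : Psi e gg k (upd 0 (p, s)) =
        ENNReal.ofReal |(G (Function.update p.1 0 s) (zz (e k) p.2) (del 0) 0).im -
          (gg 0 0 (upd 0 (p, s))).im| := Real.enorm_eq_ofReal_abs _
    rw [h5, ← ENNReal.ofReal_add (h3 k) h4]
    refine ENNReal.ofReal_le_ofReal ?_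
    rw [abs_le]
    have := h3 k
    constructor <;> linarith
  calc ∫⁻ s, (strip d a b).indicator (Psi e gg k) (upd 0 (p, s)) ∂μ
      ≤ ∫⁻ s, (ENNReal.ofReal (G (Function.update p.1 0 s) (zz (e k) p.2) (del 0) 0).im +
        ENNReal.ofReal (gg 0 0 (upd 0 (p, s))).im) ∂μ := lintegral_mono_ae h2
    _ = ∫⁻ s, ENNReal.ofReal (G (Function.update p.1 0 s) (zz (e k) p.2) (del 0) 0).im ∂μ +
        ∫⁻ s, ENNReal.ofReal (gg 0 0 (upd 0 (p, s))).im ∂μ :=
        lintegral_add_left (hmeas k).ennreal_ofReal _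
    _ ≤ ENNReal.ofReal C + ENNReal.ofReal C := add_le_add (hSpa p.1 p.2 (e k) (D.pos k)) h1
    _ = ENNReal.ofReal (2 * C) := by rw [← ENNReal.ofReal_add hC hC]; ring_nf

theorem avg_lim {a b : ℝ} (hpos : ∀ᵐ p ∂(KK d μ), p.2 ∈ Set.Ioo a b → 0 < (gg 0 0 p).im) :
    ∀ᵐ p ∂(KK d μ), Tendsto (fun k => ∫⁻ s, (strip d a b).indicator (Psi e gg k)
      (upd 0 (p, s)) ∂μ) atTop (𝓝 0) := by
  filter_upwards [Measure.ae_ae_of_ae_prod (ae_upd mp 0 D.gl), D.gl, hpos] with p hp hgl hpp
  by_cases hE : p.2 ∈ Set.Ioo a b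
  swap
  · have h0 : ∀ k, ∀ s : ℝ, (strip d a b).indicator (Psi e gg k) (upd 0 (p, s)) = 0 := by
      intro k s
      have h1 : upd (0 : Site d) (p, s) ∉ strip d a b := fun h => hE h
      exact Set.indicator_of_notMem h1 _
    simp only [h0, lintegral_zero]
    exact tendsto_const_nhds
  have hpp' := hpp hE
  have hlim : ∀ᵐ s ∂μ, Tendsto (fun k => (G (Function.update p.1 0 s) (zz (e k) p.2) (del 0) 0).im)
      atTop (𝓝 (gg 0 0 (upd 0 (p, s))).im) := by
    filter_upwards [hp] with s hs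
    exact (Complex.continuous_im.tendsto _).comp (hs 0 0)
  -- the uniform bound
  have h1 : Tendsto (fun k => ‖G p.1 (zz (e k) p.2) (del 0) 0‖ ^ 2 /
      (G p.1 (zz (e k) p.2) (del 0) 0).im) atTop (𝓝 (‖gg 0 0 p‖ ^ 2 / (gg 0 0 p).im)) :=
    ((hgl 0 0).norm.pow 2).div ((Complex.continuous_im.tendsto _).comp (hgl 0 0)) hpp'.ne'
  set M : ℝ := ‖gg 0 0 p‖ ^ 2 / (gg 0 0 p).im + 1 with hM
  have h2 : ∀ᶠ k in atTop, ‖G p.1 (zz (e k) p.2) (del 0) 0‖ ^ 2 /
      (G p.1 (zz (e k) p.2) (del 0) 0).im ≤ M :=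
    h1.eventually_le_const (by rw [hM]; linarith)
  have h3 : ∀ᶠ k in atTop, ∀ s : ℝ,
      (G (Function.update p.1 0 s) (zz (e k) p.2) (del 0) 0).im ≤ M := by
    filter_upwards [h2] with k hk
    intro s
    refine ((le_abs_self _).trans (Complex.abs_im_le_norm _)).trans ?_
    exact (norm_upd_le (zk_im D.pos k) s).trans hk
  have hbase : Tendsto (fun k => ∫⁻ s, (strip d a b).indicator (Psi e gg k)
      (upd 0 (p, s)) ∂μ) atTop (𝓝 (∫⁻ _ : ℝ, (0 : ℝ≥0∞) ∂μ)) := by
    refine tendsto_lintegral_filter_of_dominated_convergence (fun _ => ENNReal.ofReal M)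
      (Eventually.of_forall fun k => ?_) ?_ ?_ ?_
    · have h4 : Measurable fun s : ℝ => upd (0 : Site d) (p, s) :=
        (mp d μ 0).measurable.comp measurable_prodMk_left
      have h5 := ((measurable_Psi D k).indicator (measurableSet_strip a b)).comp h4
      exact h5
    · filter_upwards [h3] with k hk
      filter_upwards [hlim] with s hs
      refine (Set.indicator_le_self _ _ _).trans ?_
      have h5 : ∀ k, 0 ≤ (G (Function.update p.1 0 s) (zz (e k) p.2) (del 0) 0).im := fun k =>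
        (im_G_del_pos (zk_im D.pos k) 0).le
      have h6 : 0 ≤ (gg 0 0 (upd 0 (p, s))).im := ge_of_tendsto' hs h5
      have h7 : (gg 0 0 (upd 0 (p, s))).im ≤ M := le_of_tendsto hs (h3.mono fun k hk => hk s)
      have h8 : Psi e gg k (upd 0 (p, s)) =
          ENNReal.ofReal |(G (Function.update p.1 0 s) (zz (e k) p.2) (del 0) 0).im -
            (gg 0 0 (upd 0 (p, s))).im| := Real.enorm_eq_ofReal_abs _
      rw [h8]
      refine ENNReal.ofReal_le_ofReal ?_
      rw [abs_le]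
      have := h5 k
      have := hk s
      constructor <;> linarith
    · rw [lintegral_const]
      exact ENNReal.mul_ne_top ENNReal.ofReal_ne_top (measure_ne_top _ _)
    · filter_upwards [hlim] with s hs
      have h5 : Tendsto (fun k => Psi e gg k (upd 0 (p, s))) atTop (𝓝 0) := by
        have h6 := (hs.sub_const (gg 0 0 (upd 0 (p, s))).im).enorm
        rw [sub_self, enorm_zero] at h6
        exact h6
      refine tendsto_of_tendsto_of_tendsto_of_le_of_le tendsto_const_nhds h5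
        (fun _ => bot_le) (fun k => Set.indicator_le_self _ _ _)
  rw [lintegral_zero] at hbase
  exact hbase

/-- convergence in `L¹` -/
theorem avg {C : ℝ} (hC : 0 ≤ C) (hSpa : ∀ (V : Cfg d) (E η : ℝ), 0 < η →
      ∫⁻ s, ENNReal.ofReal (G (Function.update V 0 s) (zz η E) (del 0) 0).im ∂μ ≤
        ENNReal.ofReal C) {a b : ℝ}
    (hpos : ∀ᵐ p ∂(KK d μ), p.2 ∈ Set.Ioo a b → 0 < (gg 0 0 p).im) :
    Tendsto (fun k => ∫⁻ p in strip d a b, Psi e gg k p ∂(KK d μ)) atTop (𝓝 0) := by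
  have hH : ∀ k, Measurable ((strip d a b).indicator (Psi e gg k)) := fun k =>
    (measurable_Psi D k).indicator (measurableSet_strip a b)
  have h1 : ∀ k, ∫⁻ p in strip d a b, Psi e gg k p ∂(KK d μ) =
      ∫⁻ p, (∫⁻ s, (strip d a b).indicator (Psi e gg k) (upd 0 (p, s)) ∂μ) ∂(KK d μ) := by
    intro k
    rw [← lintegral_indicator (measurableSet_strip a b), ← (mp d μ 0).lintegral_comp (hH k)]
    exact lintegral_prod _ ((hH k).comp (mp d μ 0).measurable).aemeasurable
  simp only [h1]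
  have h2 : Tendsto (fun k => ∫⁻ p, (∫⁻ s, (strip d a b).indicator (Psi e gg k)
      (upd 0 (p, s)) ∂μ) ∂(KK d μ)) atTop (𝓝 (∫⁻ _, (0 : ℝ≥0∞) ∂(KK d μ))) := by
    refine tendsto_lintegral_of_dominated_convergence (fun _ => ENNReal.ofReal (2 * C))
      (fun k => ?_) (fun k => avg_bound D hC hSpa a b k) ?_ (avg_lim D hpos)
    · have h3 := ((hH k).comp (mp d μ 0).measurable)
      exact h3.lintegral_prod_right'
    · rw [lintegral_const]
      exact ENNReal.mul_ne_top ENNReal.ofReal_ne_top (measure_ne_top _ _)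
  rw [lintegral_zero] at h2
  exact h2

end dat

end Pool.Agent.ACE
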