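import Pool.Agent.Helper97_ACE.Main

/-!
# The absolutely continuous end: forms with `Measure.AbsolutelyContinuous`
-/

set_option autoImplicit false

open scoped InnerProductSpace ENNReal Topology
open MeasureTheory Filter

noncomputable section

namespace Pool.Agent.ACE

open Pool.Agent.Anderson Pool.Agent.Loc Pool.Agent.Helper54.Bal

variable {d : ℕ}

theorem ACIn.restrict_ac {V : Site d → ℝ} {a b : ℝ} (h : ACIn V a b) {u : L2 d}
    {m : Measure ℝ} (hm : RepM V u m) : m.restrict (Set.Ioo a b) ≪ (volume : Measure ℝ) := by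
  refine Measure.AbsolutelyContinuous.mk fun s hs h0 => ?_
  rw [Measure.restrict_apply hs]
  exact h.2.1 u m hm _ Set.inter_subset_right (measure_mono_null Set.inter_subset_left h0)

theorem ACIn.ac_restrict {V : Site d → ℝ} {a b : ℝ} (h : ACIn V a b) {x : Site d}
    {m : Measure ℝ} (hm : RepM V (del x) m) :
    (volume : Measure ℝ).restrict (Set.Ioo a b) ≪ m := by
  refine Measure.AbsolutelyContinuous.mk fun s hs h0 => ?_
  rw [Measure.restrict_apply hs]
  exact h.2.2 x m hm _ Set.inter_subset_right (measure_mono_null Set.inter_subset_left h0)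

/-- smaller intervals -/
theorem ACIn.mono {V : Site d → ℝ} {a b a' b' : ℝ} (h : ACIn V a b) (ha : a ≤ a') (hb : b' ≤ b) :
    ACIn V a' b' :=
  ⟨h.1, fun u m hm N hN => h.2.1 u m hm N (hN.trans (Set.Ioo_subset_Ioo ha hb)),
    fun x m hm N hN => h.2.2 x m hm N (hN.trans (Set.Ioo_subset_Ioo ha hb))⟩

/-- the form with `ε` -/
theorem ace_eps {σ a b : ℝ} (hd : 1 ≤ d) (hσ : σ ≠ 0) {c p : ℝ} (hc : 0 < c) (hp : 0 < p)
    (h : ∀ ε : ℝ, 0 < ε → ∃ η : ℝ, 0 < η ∧ η < ε ∧ ∀ E ∈ Set.Ioo a b,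
      ENNReal.ofReal p ≤ PP d (gl σ) {V | c ≤ (G V (zz η E) (del 0) 0).im}) :
    ∀ᵐ V ∂(PP d (gl σ)), ACIn V a b := by
  have h1 : ∀ n : ℕ, ∃ η : ℝ, 0 < η ∧ η < 1 / ((n : ℝ) + 1) ∧ ∀ E ∈ Set.Ioo a b,
      ENNReal.ofReal p ≤ PP d (gl σ) {V | c ≤ (G V (zz η E) (del 0) 0).im} := fun n =>
    h _ (by positivity)
  choose η h2 h3 h4 using h1
  refine ace d σ a b hd hσ ⟨η, h2, ?_, ?_⟩
  · exact squeeze_zero (fun n => (h2 n).le) (fun n => (h3 n).le)
      tendsto_one_div_add_atTop_nhds_zero_nat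
  · rw [ae_restrict_iff' measurableSet_Ioo]
    refine Eventually.of_forall fun E hE => ⟨c, ENNReal.ofReal p, hc, ?_, ?_⟩
    · rw [Ne, ENNReal.ofReal_eq_zero, not_le]
      exact hp
    · exact Eventually.of_forall fun n => h4 n E hE

end Pool.Agent.ACE
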