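import Pool.Agent.Helper97_ACE.Seq

/-!
# Positivity of the boundary values (zero-one law)
-/

set_option autoImplicit false
set_option linter.unusedSectionVars false

open scoped InnerProductSpace ComplexConjugate Topology ENNReal
open MeasureTheory Filter

noncomputable section

namespace Pool.Agent.ACE

open Pool.Agent.Anderson Pool.Agent.Helper54.Bal Pool.Agent.QE

variable {d : ℕ}

theorem le_measure_of_frequently {Ω : Type*} [MeasurableSpace Ω] {P : Measure Ω}
    [IsProbabilityMeasure P] {S : ℕ → Set Ω} (hS : ∀ k, MeasurableSet (S k)) {T : Set Ω}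
    {p : ℝ≥0∞} (hp : ∀ᶠ k in atTop, p ≤ P (S k))
    (hT : ∀ᵐ ω ∂P, (∃ᶠ k in atTop, ω ∈ S k) → ω ∈ T) : p ≤ P T := by
  set U : ℕ → Set Ω := fun n => ⋃ k, ⋃ (_ : n ≤ k), S k with hU
  have hUm : ∀ n, MeasurableSet (U n) := fun n =>
    MeasurableSet.iUnion fun k => MeasurableSet.iUnion fun _ => hS k
  have hUa : Antitone U := by
    intro n m hnm ω hω
    simp only [hU, Set.mem_iUnion] at hω ⊢
    obtain ⟨k, hk, h⟩ := hω
    exact ⟨k, hnm.trans hk, h⟩
  have h1 : Tendsto (fun n => P (U n)) atTop (𝓝 (P (⋂ n, U n))) :=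
    tendsto_measure_iInter_atTop (fun n => (hUm n).nullMeasurableSet) hUa
      ⟨0, measure_ne_top _ _⟩
  have h2 : p ≤ P (⋂ n, U n) := by
    refine ge_of_tendsto h1 ?_
    filter_upwards [hp] with n hn
    refine hn.trans (measure_mono fun ω hω => ?_)
    simp only [hU, Set.mem_iUnion]
    exact ⟨n, le_rfl, hω⟩
  refine h2.trans (measure_mono_ae ?_)
  filter_upwards [hT] with ω hω
  intro h
  apply hω
  rw [frequently_atTop]
  intro n
  have h3 := Set.mem_iInter.1 h n
  simp only [hU, Set.mem_iUnion] at h3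
  obtain ⟨k, hk, h⟩ := h3
  exact ⟨k, hk, h⟩

theorem swap_ae {μ : Measure ℝ} [IsProbabilityMeasure μ] {Q : Cfg d × ℝ → Prop}
    (h : ∀ᵐ p ∂(KK d μ), Q p) : ∀ᵐ E ∂lam, ∀ᵐ V ∂(PP d μ), Q (V, E) := by
  have h1 : ∀ᵐ q ∂(lam.prod (PP d μ)), Q q.swap :=
    (Measure.measurePreserving_swap (μ := lam) (ν := PP d μ)).quasiMeasurePreserving.ae h
  exact Measure.ae_ae_of_ae_prod h1

theorem ff_eq (gg : Site d → Site d → Cfg d × ℝ → ℂ) (p : Cfg d × ℝ) :
    ff 1 gg (fun (_ : Unit) x => gg x x) () p = if 0 < (gg 0 0 p).im then 1 else 0 := by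
  unfold ff av
  split_ifs with h
  · rw [div_self h.ne']
    norm_num
  · rfl

/-- the boundary value has positive imaginary part almost surely -/
theorem pos_ae {μ : Measure ℝ} [IsProbabilityMeasure μ] (hna : ∀ a : ℝ, μ {a} = 0)
    {e : ℕ → ℝ} {gg : Site d → Site d → Cfg d × ℝ → ℂ}
    (D : Dat (A1 d) μ e gg (fun _ x => gg x x)) {a b : ℝ}
    (h : ∀ᵐ E ∂((volume : Measure ℝ).restrict (Set.Ioo a b)), ∃ (c : ℝ) (p : ℝ≥0∞), 0 < c ∧
      p ≠ 0 ∧ ∀ᶠ k in atTop, p ≤ PP d μ {V | c ≤ (G V (zz (e k) E) (del 0) 0).im}) :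
    ∀ᵐ p ∂(KK d μ), p.2 ∈ Set.Ioo a b → 0 < (gg 0 0 p).im := by
  have hm : Measurable (ff 1 gg (fun (_ : Unit) x => gg x x) ()) := measurable_ff D 1 ()
  have hmc : Measurable fun E : ℝ =>
      ∫ W, ff 1 gg (fun (_ : Unit) x => gg x x) () (W, E) ∂(PP d μ) := by
    have h1 : StronglyMeasurable fun E : ℝ =>
        ∫ W, ff 1 gg (fun (_ : Unit) x => gg x x) () (W, E) ∂(PP d μ) :=
      StronglyMeasurable.integral_prod_left' (f := ff 1 gg (fun (_ : Unit) x => gg x x) ())
        hm.stronglyMeasurable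
    exact h1.measurable
  have h1 : ∀ᵐ p ∂(KK d μ), ff 1 gg (fun (_ : Unit) x => gg x x) () p =
      ∫ W, ff 1 gg (fun (_ : Unit) x => gg x x) () (W, p.2) ∂(PP d μ) := by
    refine (Measure.ae_prod_iff_ae_ae ?_).2 ?_
    · exact measurableSet_eq_fun hm (hmc.comp measurable_snd)
    · filter_upwards [ff_const obs_A1 D mp null graph zero hna zero_le_one] with V hV
      filter_upwards [hV] with E hE
      exact hE ()
  have h2 : ∀ᵐ E ∂lam, E ∈ Set.Ioo a b →
      0 < ∫ W, ff 1 gg (fun (_ : Unit) x => gg x x) () (W, E) ∂(PP d μ) := by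
    have h3 : ∀ᵐ E ∂lam, E ∈ Set.Ioo a b → ∃ (c : ℝ) (p : ℝ≥0∞), 0 < c ∧
        p ≠ 0 ∧ ∀ᶠ k in atTop, p ≤ PP d μ {V | c ≤ (G V (zz (e k) E) (del 0) 0).im} :=
      (Measure.absolutelyContinuous_of_le lam_le).ae_le
        ((ae_restrict_iff' measurableSet_Ioo).1 h)
    filter_upwards [h3, swap_ae D.gl] with E h4 h5 hE
    obtain ⟨c, p, hc, hp, h6⟩ := h4 hE
    set T : Set (Cfg d) := {V | 0 < (gg 0 0 (V, E)).im} with hT
    have hTm : MeasurableSet T := measurableSet_lt measurable_const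
      (Complex.measurable_im.comp ((D.mg 0 0).comp measurable_prodMk_right))
    have h7 : p ≤ PP d μ T := by
      refine le_measure_of_frequently (S := fun k =>
        {V | c ≤ (G V (zz (e k) E) (del 0) 0).im}) (fun k => ?_) h6 ?_
      · refine measurableSet_le measurable_const ?_
        exact Complex.measurable_im.comp (measurable_coord (sm_G (D.pos k).ne' measurable_id
          measurable_const stronglyMeasurable_const) 0)
      · filter_upwards [h5] with V hV
        intro h8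
        have h9 : Tendsto (fun k => (G V (zz (e k) E) (del 0) 0).im) atTop
            (𝓝 (gg 0 0 (V, E)).im) := (Complex.continuous_im.tendsto _).comp (hV 0 0)
        change 0 < (gg 0 0 (V, E)).im
        refine hc.trans_le ?_
        by_contra h10
        rw [not_le] at h10
        have h11 := h9.eventually_lt_const h10
        obtain ⟨k, hk1, hk2⟩ := (h8.and_eventually h11).exists
        exact absurd hk1 (not_le.2 hk2)
    have h8 : ∀ W : Cfg d, ff 1 gg (fun (_ : Unit) x => gg x x) () (W, E) =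
        T.indicator (fun _ => (1 : ℝ)) W := by
      intro W
      rw [ff_eq]
      rfl
    simp only [h8]
    rw [integral_indicator_const _ hTm, smul_eq_mul, mul_one]
    exact ENNReal.toReal_pos (fun h0 => hp (le_antisymm (h0 ▸ h7) bot_le)) (measure_ne_top _ _)
  have h3 : ∀ᵐ p ∂(KK d μ), p.2 ∈ Set.Ioo a b →
      0 < ∫ W, ff 1 gg (fun (_ : Unit) x => gg x x) () (W, p.2) ∂(PP d μ) :=
    Measure.quasiMeasurePreserving_snd.ae h2
  filter_upwards [h1, h3] with p h4 h5 hp
  have h6 := h5 hp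
  rw [← h4, ff_eq] at h6
  by_contra h7
  rw [if_neg h7] at h6
  exact lt_irrefl _ h6

end Pool.Agent.ACE
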