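import Pool.Agent.Helper94_QE.Cauchy
import Pool.Agent.Helper36_QE.Tight
import Pool.Agent.Helper68_QE.Resample
import Pool.Agent.Helper68_QE.Seq
import Pool.Agent.Helper94_QE.Graph
import Pool.Agent.Helper54_QE.Final

/-!
# Boundary values of the Green function along a subsequence of a given sequence
-/

set_option autoImplicit false
set_option linter.unusedSectionVars false

open scoped InnerProductSpace ComplexConjugate Topology ENNReal
open MeasureTheory Filter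

noncomputable section

namespace Pool.Agent.ACE

open Pool.Agent.Anderson Pool.Agent.Helper54.Bal Pool.Agent.QE

variable {d : ℕ}

/-- the trivial observable -/
def A1 (d : ℕ) : Unit → Cfg d → Op d := fun _ _ => 1

theorem obs_A1 (i : Unit) : Obs (A1 d i) where
  meas f := stronglyMeasurable_const
  cov a V f := rfl
  bdd := ⟨1, fun V => ContinuousLinearMap.norm_id_le⟩
  sa V f g := rfl
  comm V z hz f := rfl

/-- the test vectors -/
def wv (r : Site d × Site d × Fin 4) : Cfg d → L2 d :=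
  fun _ => del r.2.1 + cc r.2.2 • del r.1

theorem tendsto_floor_inv : Tendsto (fun ε : ℝ => ⌊ε⁻¹⌋₊) (𝓝[>] 0) atTop :=
  tendsto_nat_floor_atTop.comp tendsto_inv_nhdsGT_zero

theorem exists_sub (μ : Measure ℝ) [IsProbabilityMeasure μ] {η : ℕ → ℝ} (hη : ∀ n, 0 < η n)
    (hη0 : Tendsto η atTop (𝓝 0)) :
    ∃ φ : ℕ → ℕ, Tendsto φ atTop atTop ∧ ∀ r : Site d × Site d × Fin 4,
      ∃ F₀ : Cfg d × ℝ → ℂ, Measurable F₀ ∧
        ∀ᵐ p ∂(KK d μ), Tendsto (fun k => Fw (wv r) (η (φ k)) p) atTop (𝓝 (F₀ p)) := by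
  have hg : ∀ r : Site d × Site d × Fin 4,
      ∃ g₀ : Cfg d × ℝ → ℂ, Measurable g₀ ∧ ∀ δ : ℝ, 0 < δ →
      Tendsto (fun ε => (KK d μ) {p | δ ≤ ‖gw (wv r) ε p - g₀ p‖}) (𝓝[>] 0) (𝓝 0) := by
    intro r
    exact cauchy d μ (wv r) stronglyMeasurable_const ‖(del r.2.1 + cc r.2.2 • del r.1 : L2 d)‖
      fun V => le_rfl
  choose g₀ hg₀m hg₀ using hg
  have hη' : Tendsto η atTop (𝓝[>] 0) :=
    tendsto_nhdsWithin_iff.2 ⟨hη0, Eventually.of_forall hη⟩
  set N : ℝ → ℕ := fun ε => ⌊ε⁻¹⌋₊ with hN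
  have hNt : Tendsto (fun ε => η (N ε)) (𝓝[>] 0) (𝓝[>] 0) := hη'.comp tendsto_floor_inv
  obtain ⟨e, he, he0, hlim⟩ := seq (Cfg d × ℝ) (KK d μ) (Site d × Site d × Fin 4)
    (fun r ε p => ‖gw (wv r) (η (N ε)) p - g₀ r p‖) (fun r δ hδ => by
      simp only [abs_norm]
      exact (hg₀ r δ hδ).comp hNt)
  have he' : Tendsto e atTop (𝓝[>] 0) :=
    tendsto_nhdsWithin_iff.2 ⟨he0, Eventually.of_forall he⟩
  have hφ : Tendsto (fun k => N (e k)) atTop atTop := tendsto_floor_inv.comp he'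
  refine ⟨fun k => N (e k), hφ, fun r => ?_⟩
  refine bv_limit tight (w := wv r) stronglyMeasurable_const
    (C := ‖(del r.2.1 + cc r.2.2 • del r.1 : L2 d)‖) (fun V => le_rfl)
    (e := fun k => η (N (e k))) (fun k => hη _) (hη0.comp hφ) (hg₀m r) ?_
  filter_upwards [hlim r] with p hp
  rw [tendsto_iff_norm_sub_tendsto_zero]
  exact hp

/-- the boundary values of the Green function, with the trivial observable -/
theorem exists_dat1 (μ : Measure ℝ) [IsProbabilityMeasure μ] {η : ℕ → ℝ} (hη : ∀ n, 0 < η n)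
    (hη0 : Tendsto η atTop (𝓝 0)) :
    ∃ (φ : ℕ → ℕ) (gg : Site d → Site d → Cfg d × ℝ → ℂ), Tendsto φ atTop atTop ∧
      Dat (A1 d) μ (fun k => η (φ k)) gg (fun _ x => gg x x) := by
  obtain ⟨φ, hφ, hF⟩ := exists_sub (d := d) μ hη hη0
  choose F₀ hF₀m hF₀ using hF
  have hall := ae_all_iff.2 hF₀
  have hmg : ∀ x y : Site d, Measurable fun p : Cfg d × ℝ =>
      (1 / 4 : ℂ) * ∑ k : Fin 4, cc k * F₀ (x, y, k) p := fun x y =>
    (Finset.measurable_sum _ fun k _ => (hF₀m _).const_mul _).const_mul _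
  have hgl : ∀ᵐ p ∂(KK d μ), GLim p.1 p.2 (fun k => η (φ k))
      (fun x y => (1 / 4 : ℂ) * ∑ k : Fin 4, cc k * F₀ (x, y, k) p) := by
    filter_upwards [hall] with p hp
    intro x y
    have h1 : Tendsto (fun n => (1 / 4 : ℂ) * ∑ k : Fin 4,
        cc k * Fw (wv (x, y, k)) (η (φ n)) p) atTop
        (𝓝 ((1 / 4) * ∑ k : Fin 4, cc k * F₀ (x, y, k) p)) :=
      (tendsto_finsetSum _ fun k _ => (hp (x, y, k)).const_mul _).const_mul _
    refine h1.congr fun n => ?_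
    have h2 := polar' (G p.1 (zz (η (φ n)) p.2)) (del x) (del y)
    rw [inner_del_left] at h2
    rw [h2]
    rfl
  refine ⟨φ, fun x y p => (1 / 4) * ∑ k : Fin 4, cc k * F₀ (x, y, k) p, hφ, ?_⟩
  refine ⟨fun k => hη _, hη0.comp hφ, hmg, fun _ x => hmg x x, hgl, ?_, ?_⟩
  · filter_upwards [hgl] with p hp
    intro i x
    exact hp x x
  · refine Eventually.of_forall fun ω i x₀ x => ?_
    have h0 : ∀ ε : ℝ, dq (A1 d i) x₀ x ε ω = 0 := by
      intro ε
      simp [dq, A1]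
    simp only [h0]
    exact ⟨tendsto_const_nhds, tendsto_const_nhds⟩

end Pool.Agent.ACE
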