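import Pool.Agent.Helper97_ACE.Defs
import Pool.Agent.Helper83_QE.Spec
import Pool.Agent.Helper14_QE.AC2

/-!
# Spectral measures of arbitrary vectors and their testing

`RepM V u m`: the finite measure `m` is the spectral measure of the vector `u` for `Δ + V`.
-/

set_option autoImplicit false
set_option linter.unusedSectionVars false

open scoped InnerProductSpace ComplexConjugate Topology ENNReal
open MeasureTheory Filter

noncomputable section

namespace Pool.Agent.ACE

open Pool.Agent.Anderson Pool.Agent.Helper54.Bal Pool.Agent.Helper14.QE Pool.Agent.Helper35.AC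
open Pool.Agent.QE (Op cay cayS adjoint_cay cay_mul_cayS cayS_mul_cay exists_measure_cfc cay_real
  negI_im_ne)

variable {d : ℕ}

/-- existence of the spectral measure (the proof of `Pool.Agent.QE.spec` for a general vector) -/
theorem exists_repM (V : Site d → ℝ) (ψ : L2 d) : ∃ m : Measure ℝ, RepM V ψ m := by
  set U : Op d := cay V with hUdef
  have hstar : star U = cayS V := by
    rw [ContinuousLinearMap.star_eq_adjoint, adjoint_cay]
  have hUn : IsStarNormal U := by
    constructor
    rw [hstar]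
    change cayS V * cay V = cay V * cayS V
    rw [cay_mul_cayS, cayS_mul_cay]
  obtain ⟨m₀, hm₀, hm⟩ := exists_measure_cfc U hUn ψ
  have hcirc : ∀ u : spectrum ℂ U, ‖(u : ℂ)‖ = 1 := by
    intro u
    have hUu : U ∈ unitary (Op d) := by
      rw [Unitary.mem_iff, hstar]
      exact ⟨cayS_mul_cay V, cay_mul_cayS V⟩
    have := spectrum.subset_circle_of_unitary hUu u.2
    simpa using this
  let en : spectrum ℂ U → ℝ := fun u => (Complex.I * (1 + (u : ℂ)) / (1 - (u : ℂ))).re
  have hen : Measurable en := by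
    have : Measurable fun u : spectrum ℂ U => (u : ℂ) := measurable_subtype_coe
    exact Complex.measurable_re.comp
      (((measurable_const.add this).const_mul _).div (measurable_const.sub this))
  let T : Set (spectrum ℂ U) := {u | (u : ℂ) ≠ 1}
  have hT : MeasurableSet T := by
    have : Measurable fun u : spectrum ℂ U => (u : ℂ) := measurable_subtype_coe
    exact (this (measurableSet_singleton (1 : ℂ))).compl
  refine ⟨(m₀.restrict T).map en, inferInstance, fun z hz => ?_⟩
  simp only [← one_div]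
  -- the function representing `G V (-i)`
  let g : C(spectrum ℂ U, ℂ) := ⟨fun u => (1 - (u : ℂ)) / (2 * Complex.I), by fun_prop⟩
  have hI : (2 * Complex.I : ℂ) ≠ 0 := by simp
  have hg : cfcHom hUn g = G V (-Complex.I) := by
    have e : g = (2 * Complex.I)⁻¹ •
        (1 - (ContinuousMap.id ℂ).restrict (spectrum ℂ U)) := by
      ext u
      change (1 - (u : ℂ)) / (2 * Complex.I) = (2 * Complex.I)⁻¹ * (1 - (u : ℂ))
      rw [div_eq_inv_mul]
    rw [e, map_smul, map_sub, map_one, cfcHom_id, hUdef]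
    unfold cay
    rw [sub_sub_cancel, smul_smul, inv_mul_cancel₀ hI, one_smul]
  let dd : C(spectrum ℂ U, ℂ) := 1 - (z + Complex.I) • g
  have hdd : ∀ u, dd u ≠ 0 := by
    intro u
    by_cases hu : (u : ℂ) = 1
    · have : dd u = 1 - (z + Complex.I) * ((1 - (u : ℂ)) / (2 * Complex.I)) := rfl
      rw [this, hu]
      simp
    · have h1 : dd u = (1 - (u : ℂ)) / (2 * Complex.I) * ((en u : ℂ) - z) := by
        have : dd u = 1 - (z + Complex.I) * ((1 - (u : ℂ)) / (2 * Complex.I)) := rfl
        rw [this]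
        change _ = (1 - (u : ℂ)) / (2 * Complex.I) *
          ((((Complex.I * (1 + (u : ℂ)) / (1 - (u : ℂ))).re : ℝ) : ℂ) - z)
        rw [← cay_real (hcirc u) hu]
        have h2 : (1 : ℂ) - u ≠ 0 := sub_ne_zero.2 (Ne.symm hu)
        field_simp
        ring
      rw [h1]
      refine mul_ne_zero (div_ne_zero (sub_ne_zero.2 (Ne.symm hu)) hI) (real_sub_ne hz _)
  let r : C(spectrum ℂ U, ℂ) := ⟨fun u => g u / dd u,
    Continuous.div g.continuous dd.continuous hdd⟩
  have hr : cfcHom hUn r = G V z := by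
    have e1 : r * dd = g := by
      ext u
      exact div_mul_cancel₀ _ (hdd u)
    have e2 : cfcHom hUn r * (1 - (z + Complex.I) • G V (-Complex.I)) = G V (-Complex.I) := by
      rw [← hg]
      conv_rhs => rw [← e1]
      rw [map_mul, map_sub, map_one, map_smul]
    have e3 : (z + Complex.I) • (G V (-Complex.I) * G V z) = G V z - G V (-Complex.I) := by
      have h := (isRes_G V).ident (-Complex.I) z negI_im_ne hz
      have h4 : (z + Complex.I) = -(-Complex.I - z) := by ring
      rw [h4, neg_smul, ← h, neg_sub]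
    have e4 : (1 - (z + Complex.I) • G V (-Complex.I)) * (1 + (z + Complex.I) • G V z) = 1 := by
      rw [mul_add, mul_one, sub_mul, one_mul, mul_smul_comm, smul_mul_assoc, e3]
      module
    calc cfcHom hUn r = cfcHom hUn r *
          ((1 - (z + Complex.I) • G V (-Complex.I)) * (1 + (z + Complex.I) • G V z)) := by
          rw [e4, mul_one]
      _ = G V (-Complex.I) * (1 + (z + Complex.I) • G V z) := by rw [← mul_assoc, e2]
      _ = G V z := by
          rw [mul_add, mul_one, mul_smul_comm, e3]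
          abel
  have h1 : ⟪ψ, G V z ψ⟫_ℂ = ∫ u, r u ∂m₀ := by
    rw [← hm r, hr]
  have h2 : ∫ E : ℝ, 1 / ((E : ℂ) - z) ∂((m₀.restrict T).map en) =
      ∫ u in T, 1 / ((en u : ℂ) - z) ∂m₀ := by
    rw [integral_map hen.aemeasurable]
    apply Measurable.aestronglyMeasurable
    exact measurable_const.div (Complex.measurable_ofReal.sub measurable_const)
  have h3 : ∫ u in T, 1 / ((en u : ℂ) - z) ∂m₀ = ∫ u in T, r u ∂m₀ := by
    refine setIntegral_congr_fun hT fun u hu => ?_
    have hu' : (u : ℂ) ≠ 1 := hu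
    have h2 : (1 : ℂ) - u ≠ 0 := sub_ne_zero.2 (Ne.symm hu')
    have h4 := hdd u
    have e1 : dd u = (1 - (u : ℂ)) / (2 * Complex.I) * ((en u : ℂ) - z) := by
      have : dd u = 1 - (z + Complex.I) * ((1 - (u : ℂ)) / (2 * Complex.I)) := rfl
      rw [this]
      change _ = (1 - (u : ℂ)) / (2 * Complex.I) *
        ((((Complex.I * (1 + (u : ℂ)) / (1 - (u : ℂ))).re : ℝ) : ℂ) - z)
      rw [← cay_real (hcirc u) hu']
      field_simp
      ring
    change 1 / ((en u : ℂ) - z) = (1 - (u : ℂ)) / (2 * Complex.I) / dd u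
    rw [e1]
    have h5 := real_sub_ne hz (en u)
    field_simp
  have h4 : ∫ u in T, r u ∂m₀ = ∫ u, r u ∂m₀ := by
    refine setIntegral_eq_integral_of_forall_compl_eq_zero fun u hu => ?_
    have hu' : (u : ℂ) = 1 := by
      by_contra h
      exact hu h
    change (1 - (u : ℂ)) / (2 * Complex.I) / dd u = 0
    rw [hu']
    simp
  rw [h1, h2, h3, h4]

/-- the imaginary part of the resolvent is the Poisson integral of the spectral measure -/
theorem im_rep {V : Site d → ℝ} {u : L2 d} {m : Measure ℝ} (h : RepM V u m) {ε : ℝ}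
    (hε : 0 < ε) (E : ℝ) : ε * ‖G V (zz ε E) u‖ ^ 2 = ∫ t, pk ε (t - E) ∂m := by
  have hfin := h.1
  have hz : (zz ε E).im ≠ 0 := by simpa using hε.ne'
  have h0 := (isRes_G V).im_inner hz u
  rw [zz_im] at h0
  rw [← h0, h.2 _ hz]
  simp only [← one_div]
  have hint : Integrable (fun t : ℝ => 1 / ((t : ℂ) - zz ε E)) m := by
    refine Integrable.of_bound (C := |(zz ε E).im|⁻¹) ?_ (Eventually.of_forall fun t => ?_)
    · have : Continuous fun t : ℝ => 1 / ((t : ℂ) - zz ε E) :=
        continuous_const.div (by fun_prop) fun t => real_sub_ne hz t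
      exact this.aestronglyMeasurable
    · rw [one_div]
      exact norm_inv_le hz t
  have h2 : (∫ t : ℝ, 1 / ((t : ℂ) - zz ε E) ∂m).im =
      ∫ t : ℝ, (1 / ((t : ℂ) - zz ε E)).im ∂m := (integral_im hint).symm
  rw [h2]
  refine integral_congr_ae (Eventually.of_forall fun t => ?_)
  change (1 / ((t : ℂ) - zz ε E)).im = pk ε (t - E)
  rw [one_div, Complex.inv_im, Complex.normSq_apply]
  simp only [Complex.sub_re, Complex.ofReal_re, zz_re, Complex.sub_im, Complex.ofReal_im, zz_im]
  unfold pk
  have h3 : (t - E) * (t - E) + (0 - ε) * (0 - ε) = (t - E) ^ 2 + ε ^ 2 := by ring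
  rw [h3]
  ring

/-- Tonelli for the Poisson integral -/
theorem test_tonelli {V : Site d → ℝ} {u : L2 d} {m : Measure ℝ} (h : RepM V u m)
    {f : ℝ → ℝ} (hf : Continuous f) (hf0 : ∀ t, 0 ≤ f t) {P : ℝ} (hP : ∀ t, |f t| ≤ P) {ε : ℝ}
    (hε : 0 < ε) :
    ∫⁻ E, ENNReal.ofReal (f E * (ε * ‖G V (zz ε E) u‖ ^ 2)) =
      ∫⁻ t, ENNReal.ofReal (Pr f ε t) ∂m := by
  have hfin := h.1
  have hpk := pk_continuous hε
  have h1 : ∀ E, ENNReal.ofReal (f E * (ε * ‖G V (zz ε E) u‖ ^ 2)) =
      ∫⁻ t, ENNReal.ofReal (f E * pk ε (t - E)) ∂m := by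
    intro E
    rw [im_rep h hε, ← integral_const_mul, ofReal_integral_eq_lintegral_ofReal]
    · exact (integrable_pk _ hε E).const_mul _
    · exact Eventually.of_forall fun t => mul_nonneg (hf0 E) (pk_nonneg hε _)
  have h2 : ∀ t, ENNReal.ofReal (Pr f ε t) = ∫⁻ E, ENNReal.ofReal (f E * pk ε (t - E)) := by
    intro t
    have e : Pr f ε t = ∫ E, f E * pk ε (t - E) := by
      unfold Pr pk
      refine integral_congr_ae (Eventually.of_forall fun E => ?_)
      simp only
      rw [show (E - t) ^ 2 = (t - E) ^ 2 by ring]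
    rw [e, ofReal_integral_eq_lintegral_ofReal]
    · have i1 : Integrable fun E => pk ε (t - E) := by
        have := (integral_shift_poisson hε t).1.const_mul ε
        refine this.congr (Eventually.of_forall fun E => ?_)
        simp only [pk]
        rw [show (t - E) ^ 2 = (E - t) ^ 2 by ring, div_eq_mul_inv]
      exact i1.bdd_mul (c := P) hf.aestronglyMeasurable
        (Eventually.of_forall fun E => by rw [Real.norm_eq_abs]; exact hP E)
    · exact Eventually.of_forall fun E => mul_nonneg (hf0 E) (pk_nonneg hε _)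
  simp only [h1, h2]
  refine lintegral_lintegral_swap ?_
  have hc : Continuous (Function.uncurry fun E t : ℝ => f E * pk ε (t - E)) := by
    have h3 : Continuous fun q : ℝ × ℝ => pk ε (q.2 - q.1) := hpk.comp (by fun_prop)
    exact (hf.comp continuous_fst).mul h3
  exact (ENNReal.continuous_ofReal.comp hc).measurable.aemeasurable

/-- the spectral measure is the weak limit of the densities `(η/π) ‖G (E + i η) u‖²` -/
theorem test_lim {V : Site d → ℝ} {u : L2 d} {m : Measure ℝ} (h : RepM V u m)
    {f : ℝ → ℝ} (hf : Continuous f) (hf0 : ∀ t, 0 ≤ f t) {P : ℝ} (hP : ∀ t, |f t| ≤ P)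
    {e : ℕ → ℝ} (he : ∀ k, 0 < e k) (he0 : Tendsto e atTop (𝓝 0)) :
    Tendsto (fun k => ∫⁻ E, ENNReal.ofReal (f E * (e k * ‖G V (zz (e k) E) u‖ ^ 2))) atTop
      (𝓝 (ENNReal.ofReal Real.pi * ∫⁻ t, ENNReal.ofReal (f t) ∂m)) := by
  have hfin := h.1
  simp only [fun k => test_tonelli h hf hf0 hP (he k)]
  have h1 : ENNReal.ofReal Real.pi * ∫⁻ t, ENNReal.ofReal (f t) ∂m =
      ∫⁻ t, ENNReal.ofReal (Real.pi * f t) ∂m := by
    rw [← lintegral_const_mul' _ _ ENNReal.ofReal_ne_top]
    exact lintegral_congr fun t => (ENNReal.ofReal_mul Real.pi_pos.le).symm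
  rw [h1]
  refine tendsto_lintegral_of_dominated_convergence (fun _ => ENNReal.ofReal (P * Real.pi))
    ?_ ?_ ?_ ?_
  · intro k
    exact (measurable_Pr hf.measurable _).ennreal_ofReal
  · intro k
    refine Eventually.of_forall fun t => ENNReal.ofReal_le_ofReal ?_
    exact (le_abs_self _).trans (abs_Pr_le hP (he k) t)
  · rw [lintegral_const]
    exact ENNReal.mul_ne_top ENNReal.ofReal_ne_top (measure_ne_top _ _)
  · refine Eventually.of_forall fun t => ?_
    exact (ENNReal.continuous_ofReal.tendsto _).comp (tendsto_pois hf hP he he0 t)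

/-- the total mass of the spectral measure -/
theorem mass_le {V : Site d → ℝ} {u : L2 d} {m : Measure ℝ} (h : RepM V u m) :
    m Set.univ ≤ ENNReal.ofReal (‖u‖ ^ 2) := by
  have he : ∀ k : ℕ, (0:ℝ) < 1 / ((k : ℝ) + 1) := fun k => by positivity
  have h1 := test_lim h (f := fun _ => 1) continuous_const (fun _ => zero_le_one) (P := 1)
    (fun _ => by simp) he tendsto_one_div_add_atTop_nhds_zero_nat
  have h2 : ∀ k : ℕ, ∫⁻ E, ENNReal.ofReal ((1:ℝ) * (1 / ((k : ℝ) + 1) *
      ‖G V (zz (1 / ((k : ℝ) + 1)) E) u‖ ^ 2)) = ENNReal.ofReal (Real.pi * ‖u‖ ^ 2) := by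
    intro k
    rw [← ofReal_integral_eq_lintegral_ofReal]
    · congr 1
      rw [integral_const_mul, integral_const_mul, (isRes_G V).integral_sq (he k)]
      have : ((k : ℝ) + 1) ≠ 0 := by positivity
      field_simp
    · exact (((isRes_G V).integrable_sq (he k) u).const_mul _).const_mul _
    · exact Eventually.of_forall fun E => by positivity
  simp only [h2] at h1
  have h3 := tendsto_nhds_unique h1 tendsto_const_nhds
  rw [ENNReal.ofReal_one, lintegral_one, ENNReal.ofReal_mul Real.pi_pos.le] at h3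
  have h4 : ENNReal.ofReal Real.pi ≠ 0 := by
    rw [Ne, ENNReal.ofReal_eq_zero, not_le]
    exact Real.pi_pos
  exact ((ENNReal.mul_right_inj h4 ENNReal.ofReal_ne_top).1 h3).le

end Pool.Agent.ACE
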